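import Pool.Agent.helper43.DHB.SpecB

/-!
# d2:bROB (helper96): perturbation
-/

set_option autoImplicit false

open Filter Topology MeasureTheory
open scoped commutatorElement

namespace Pool.Agent.helper90.DH

open Pool.Agent.helper64.D2

/-- the index of the cell of `y`. -/
noncomputable def bROB_k (N : ℕ) (y : ℝ) : ℤ := ⌊(2 : ℝ) ^ N * y⌋

theorem bROB_mem (N : ℕ) (y : ℝ) : y ∈ cell N (bROB_k N y) := by
  have h2 : (0 : ℝ) < 2 ^ N := by positivity
  unfold cell bROB_k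
  constructor
  · rw [div_le_iff₀ h2]
    have := Int.floor_le ((2 : ℝ) ^ N * y)
    linarith [mul_comm y ((2 : ℝ) ^ N)]
  · rw [lt_div_iff₀ h2]
    have := Int.lt_floor_add_one ((2 : ℝ) ^ N * y)
    linarith [mul_comm y ((2 : ℝ) ^ N)]

theorem bROB_uniq {N : ℕ} {k : ℤ} {y : ℝ} (h : y ∈ cell N k) : bROB_k N y = k := by
  have h2 : (0 : ℝ) < 2 ^ N := by positivity
  obtain ⟨ha, hb⟩ := h
  rw [div_le_iff₀ h2] at ha
  rw [lt_div_iff₀ h2] at hb
  unfold bROB_k
  rw [Int.floor_eq_iff]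
  constructor <;> linarith [mul_comm y ((2 : ℝ) ^ N)]

theorem bROB_meas (N : ℕ) : Measurable (bROB_k N) :=
  Int.measurable_floor.comp (measurable_const.mul measurable_id)

theorem bROB_cellm (N : ℕ) (k : ℤ) : MeasurableSet (cell N k) := measurableSet_Ico

theorem bROB_vol (N : ℕ) (k : ℤ) : volume.real (cell N k) = 1 / 2 ^ N := by
  unfold cell
  rw [Measure.real, Real.volume_Ico, ENNReal.toReal_ofReal]
  · ring
  · have h2 : (0 : ℝ) < 2 ^ N := by positivity
    rw [sub_nonneg]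
    gcongr
    linarith

theorem bROB_sum (N : ℕ) (g : ℝ → ℝ) (hg : Integrable g) :
    HasSum (fun k : ℤ => ∫ x in cell N k, g x) (∫ x, g x) := by
  have hU : (⋃ k : ℤ, cell N k) = Set.univ := by
    ext y
    simp only [Set.mem_iUnion, Set.mem_univ, iff_true]
    exact ⟨_, bROB_mem N y⟩
  have hd : Pairwise (Function.onFun Disjoint (fun k : ℤ => cell N k)) := by
    intro i j hij
    refine Set.disjoint_left.2 fun y hi hj => hij ?_
    rw [← bROB_uniq hi, ← bROB_uniq hj]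
  have h := hasSum_integral_iUnion (μ := volume) (f := g) (fun k => bROB_cellm N k) hd
    (by rw [hU]; exact hg.integrableOn)
  rw [hU, setIntegral_univ] at h
  exact h

/-- points near an end point of their cell. -/
def bROB_G (N : ℕ) (δ : ℝ) : Set ℝ :=
  {y | y - (bROB_k N y : ℝ) / 2 ^ N ≤ δ ∨ ((bROB_k N y : ℝ) + 1) / 2 ^ N - y ≤ δ}

theorem bROB_Gm (N : ℕ) (δ : ℝ) : MeasurableSet (bROB_G N δ) := by
  have hk : Measurable (fun y : ℝ => ((bROB_k N y : ℤ) : ℝ)) :=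
    (measurable_from_top (f := fun k : ℤ => (k : ℝ))).comp (bROB_meas N)
  refine MeasurableSet.union ?_ ?_
  · exact measurableSet_le (measurable_id.sub (hk.div_const _)) measurable_const
  · exact measurableSet_le (((hk.add_const 1).div_const _).sub measurable_id) measurable_const

theorem bROB_Gv (N : ℕ) (δ : ℝ) (hδ : 0 ≤ δ) (k : ℤ) :
    volume.real (cell N k ∩ bROB_G N δ) ≤ 2 * δ := by
  have hsub : cell N k ∩ bROB_G N δ ⊆
      Set.Icc ((k : ℝ) / 2 ^ N) ((k : ℝ) / 2 ^ N + δ) ∪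
        Set.Icc (((k : ℝ) + 1) / 2 ^ N - δ) (((k : ℝ) + 1) / 2 ^ N) := by
    rintro y ⟨hy, hG⟩
    have hk := bROB_uniq hy
    rcases hG with hG | hG
    · left
      rw [hk] at hG
      exact ⟨hy.1, by linarith⟩
    · right
      rw [hk] at hG
      exact ⟨by linarith, hy.2.le⟩
  have h1 : volume (cell N k ∩ bROB_G N δ) ≤ ENNReal.ofReal (2 * δ) := by
    refine (measure_mono hsub).trans ((measure_union_le _ _).trans ?_)
    rw [Real.volume_Icc, Real.volume_Icc, ← ENNReal.ofReal_add (by linarith) (by linarith)]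
    apply ENNReal.ofReal_le_ofReal
    linarith
  exact ENNReal.toReal_le_of_le_ofReal (by positivity) h1

theorem bROB_near (N : ℕ) (δ y y' : ℝ) (h : |y' - y| ≤ δ) (hne : bROB_k N y ≠ bROB_k N y') :
    y ∈ bROB_G N δ ∧ y' ∈ bROB_G N δ := by
  have h2 : (0 : ℝ) < 2 ^ N := by positivity
  obtain ⟨a1, a2⟩ := bROB_mem N y
  obtain ⟨b1, b2⟩ := bROB_mem N y'
  obtain ⟨h3, h4⟩ := abs_le.1 h
  rcases lt_or_gt_of_ne hne with hlt | hlt
  · have h5 : ((bROB_k N y : ℝ) + 1) / 2 ^ N ≤ (bROB_k N y' : ℝ) / 2 ^ N := by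
      gcongr
      exact_mod_cast hlt
    exact ⟨Or.inr (by linarith), Or.inl (by linarith)⟩
  · have h5 : ((bROB_k N y' : ℝ) + 1) / 2 ^ N ≤ (bROB_k N y : ℝ) / 2 ^ N := by
      gcongr
      exact_mod_cast hlt
    exact ⟨Or.inl (by linarith), Or.inr (by linarith)⟩

/-- the majorant. -/
noncomputable def bROB_P (N : ℕ) (δ η : ℝ) (f : ℝ → ℝ) (y : ℝ) : ℝ :=
  2 ^ N * (∫ t in cell N (bROB_k N y), f t ^ 2) *
    (48 * η ^ 2 + (bROB_G N δ).indicator (fun _ => (8 : ℝ)) y)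

theorem bROB_P_nonneg (N : ℕ) (δ η : ℝ) (f : ℝ → ℝ) (y : ℝ) : 0 ≤ bROB_P N δ η f y := by
  unfold bROB_P
  have h1 : 0 ≤ ∫ t in cell N (bROB_k N y), f t ^ 2 :=
    integral_nonneg fun t => sq_nonneg _
  have h2 : 0 ≤ (bROB_G N δ).indicator (fun _ => (8 : ℝ)) y :=
    Set.indicator_nonneg (fun _ _ => by norm_num) y
  positivity

theorem bROB_P_Nc (hNIC : bNIC_stmt) (N : ℕ) (δ η : ℝ) (f : ℝ → ℝ) (hf : Nc f) (hS : Su f) :
    Nc (bROB_P N δ η f) := by
  have hint : Integrable (fun x => f x ^ 2) := (hNIC.2.2.2.2.1 f hf).2.1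
  have hm : Measurable (bROB_P N δ η f) := by
    unfold bROB_P
    have h1 : Measurable (fun y : ℝ => ∫ t in cell N (bROB_k N y), f t ^ 2) :=
      (measurable_from_top (f := fun k : ℤ => ∫ t in cell N k, f t ^ 2)).comp (bROB_meas N)
    exact (measurable_const.mul h1).mul
      (measurable_const.add (measurable_const.indicator (bROB_Gm N δ)))
  refine ⟨hm, max 2 (2 ^ N * (∫ t, f t ^ 2) * (48 * η ^ 2 + 8)), fun y => ?_, fun y hy => ?_⟩
  · rw [abs_of_nonneg (bROB_P_nonneg N δ η f y)]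
    refine le_trans ?_ (le_max_right _ _)
    unfold bROB_P
    have h1 : ∫ t in cell N (bROB_k N y), f t ^ 2 ≤ ∫ t, f t ^ 2 :=
      setIntegral_le_integral hint (Eventually.of_forall fun t => sq_nonneg _)
    have h0 : 0 ≤ ∫ t in cell N (bROB_k N y), f t ^ 2 :=
      integral_nonneg fun t => sq_nonneg _
    have h2 : (bROB_G N δ).indicator (fun _ => (8 : ℝ)) y ≤ 8 :=
      Set.indicator_le' (s := bROB_G N δ) (f := fun _ => (8 : ℝ)) (g := fun _ => (8 : ℝ))
        (fun _ _ => le_refl _) (fun _ _ => by norm_num) y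
    have h3 : 0 ≤ (bROB_G N δ).indicator (fun _ => (8 : ℝ)) y :=
      Set.indicator_nonneg (fun _ _ => by norm_num) y
    have h4 : (0 : ℝ) ≤ ∫ t, f t ^ 2 := h0.trans h1
    gcongr
  · have hy2 : 2 < |y| := lt_of_le_of_lt (le_max_left _ _) hy
    have hz : ∫ t in cell N (bROB_k N y), f t ^ 2 = 0 := by
      have h5 : ∀ t ∈ cell N (bROB_k N y), f t ^ 2 = 0 := by
        intro t ht
        have hn : t ∉ Set.Icc (1 / 5 : ℝ) (4 / 5) := by
          intro htI
          obtain ⟨c1, c2⟩ := bROB_mem N y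
          obtain ⟨d1, d2⟩ := ht
          have h6 : ((bROB_k N y : ℝ) + 1) / 2 ^ N - (bROB_k N y : ℝ) / 2 ^ N ≤ 1 := by
            have h2 : (0 : ℝ) < 2 ^ N := by positivity
            rw [← sub_div, add_sub_cancel_left, div_le_iff₀ h2, one_mul]
            exact one_le_pow₀ (by norm_num)
          obtain ⟨e1, e2⟩ := htI
          rcases lt_abs.1 hy2 with h7 | h7 <;> linarith
        rw [hS t hn]
        ring
      rw [setIntegral_congr_fun (bROB_cellm N _) h5]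
      simp
    unfold bROB_P
    rw [hz]
    ring

theorem bROB_P_int (N : ℕ) (δ η : ℝ) (hδ : 0 ≤ δ) (f : ℝ → ℝ)
    (hf : Integrable (fun x => f x ^ 2)) (hP : Integrable (bROB_P N δ η f)) :
    ∫ y, bROB_P N δ η f y ≤ (48 * η ^ 2 + 16 * 2 ^ N * δ) * ∫ t, f t ^ 2 := by
  have h1 := bROB_sum N _ hP
  have h2 := (bROB_sum N _ hf).mul_left (48 * η ^ 2 + 16 * 2 ^ N * δ)
  refine hasSum_le (fun k => ?_) h1 h2
  have e1 : ∫ y in cell N k, bROB_P N δ η f y = ∫ y in cell N k,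
      (2 ^ N * (∫ t in cell N k, f t ^ 2)) *
        (48 * η ^ 2 + (bROB_G N δ).indicator (fun _ => (8 : ℝ)) y) := by
    refine setIntegral_congr_fun (bROB_cellm N k) fun y hy => ?_
    show bROB_P N δ η f y = _
    unfold bROB_P
    rw [bROB_uniq hy]
  have h0 : 0 ≤ ∫ t in cell N k, f t ^ 2 := integral_nonneg fun t => sq_nonneg _
  have hfin : volume (cell N k) ≠ ⊤ := by
    unfold cell
    rw [Real.volume_Ico]
    exact ENNReal.ofReal_ne_top
  have i1 : IntegrableOn (fun _ : ℝ => 48 * η ^ 2) (cell N k) volume :=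
    integrableOn_const hfin
  have i2 : IntegrableOn ((bROB_G N δ).indicator (fun _ => (8 : ℝ))) (cell N k) volume := by
    refine IntegrableOn.indicator ?_ (bROB_Gm N δ)
    exact integrableOn_const hfin
  rw [e1, integral_const_mul, integral_add i1 i2, setIntegral_indicator (bROB_Gm N δ),
    setIntegral_const, setIntegral_const, bROB_vol, smul_eq_mul, smul_eq_mul]
  have h3 := bROB_Gv N δ hδ k
  have h4 : (0 : ℝ) < 2 ^ N := by positivity
  calc 2 ^ N * (∫ t in cell N k, f t ^ 2) *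
        (1 / 2 ^ N * (48 * η ^ 2) + volume.real (cell N k ∩ bROB_G N δ) * 8)
      ≤ 2 ^ N * (∫ t in cell N k, f t ^ 2) * (1 / 2 ^ N * (48 * η ^ 2) + (2 * δ) * 8) := by
        gcongr
    _ = (48 * η ^ 2 + 16 * 2 ^ N * δ) * ∫ t in cell N k, f t ^ 2 := by
        field_simp
        ring

theorem bROB (hSUP : bSUP_stmt) (hNMF : bNMF_stmt) (hNIC : bNIC_stmt) : bROB_stmt := by
  refine ⟨170, by norm_num, ?_⟩
  intro C C' s η f hC hC' hη0 hη1 hd hPA hSu
  have hf : Nc f := hNIC.2.2.2.2.2.2.2.2.2.2 (s + 1) f hPA hSu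
  have hf2 : Integrable (fun x => f x ^ 2) := (hNIC.2.2.2.2.1 f hf).2.1
  have hδ : 0 ≤ η / 2 ^ s := by positivity
  have hPN : Nc (bROB_P (s + 1) (η / 2 ^ s) η f) := bROB_P_Nc hNIC _ _ _ f hf hSu
  have hPI : Integrable (bROB_P (s + 1) (η / 2 ^ s) η f) := (hNIC.2.2.2.2.1 _ hPN).1
  have hP0 := bROB_P_nonneg (s + 1) (η / 2 ^ s) η f
  have hPint := bROB_P_int (s + 1) (η / 2 ^ s) η hδ f hf2 hPI
  obtain ⟨i1, j1⟩ := hNMF.2.2.2 C (1 / 20) _ (by norm_num) hC hP0 hPI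
  obtain ⟨i2, j2⟩ := hNMF.2.2.2 C' (1 / 20) _ (by norm_num) hC' hP0 hPI
  have hpt : ∀ x, (f (C' x) - f (C x)) ^ 2 ≤
      bROB_P (s + 1) (η / 2 ^ s) η f (C x) + bROB_P (s + 1) (η / 2 ^ s) η f (C' x) := by
    intro x
    by_cases hk : bROB_k (s + 1) (C x) = bROB_k (s + 1) (C' x)
    · have h1 := (hSUP (s + 1) f hPA (bROB_k (s + 1) (C x)) (C' x)
        (by rw [hk]; exact bROB_mem _ _)).2 (C x) (bROB_mem _ _)
      have h2 : (C' x - C x) ^ 2 ≤ (η / 2 ^ s) ^ 2 := by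
        rw [← sq_abs]
        exact pow_le_pow_left₀ (abs_nonneg _) (hd x) 2
      have h0 : 0 ≤ ∫ t in cell (s + 1) (bROB_k (s + 1) (C x)), f t ^ 2 :=
        integral_nonneg fun t => sq_nonneg _
      have h3 : (0 : ℝ) ≤ (bROB_G (s + 1) (η / 2 ^ s)).indicator (fun _ => (8 : ℝ)) (C x) :=
        Set.indicator_nonneg (fun _ _ => by norm_num) _
      have h4 : 12 * 8 ^ (s + 1) * (C' x - C x) ^ 2 *
          (∫ t in cell (s + 1) (bROB_k (s + 1) (C x)), f t ^ 2) ≤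
          bROB_P (s + 1) (η / 2 ^ s) η f (C x) := by
        unfold bROB_P
        calc 12 * 8 ^ (s + 1) * (C' x - C x) ^ 2 *
              (∫ t in cell (s + 1) (bROB_k (s + 1) (C x)), f t ^ 2)
            ≤ 12 * 8 ^ (s + 1) * (η / 2 ^ s) ^ 2 *
              (∫ t in cell (s + 1) (bROB_k (s + 1) (C x)), f t ^ 2) := by gcongr
          _ = 2 ^ (s + 1) * (∫ t in cell (s + 1) (bROB_k (s + 1) (C x)), f t ^ 2) *
              (48 * η ^ 2 + 0) := by
              have e8 : (8 : ℝ) ^ s = 2 ^ s * (2 ^ s) ^ 2 := by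
                rw [← pow_mul, ← pow_add, show (8 : ℝ) = 2 ^ 3 by norm_num, ← pow_mul]
                congr 1
                ring
              have h2s : (2 : ℝ) ^ s ≠ 0 := by positivity
              rw [pow_succ, pow_succ, e8]
              field_simp
              ring
          _ ≤ _ := by gcongr
      have h5 := hP0 (C' x)
      calc (f (C' x) - f (C x)) ^ 2 ≤ _ := h1
        _ ≤ _ := h4
        _ ≤ _ := by linarith
    · obtain ⟨g1, g2⟩ := bROB_near (s + 1) (η / 2 ^ s) (C x) (C' x) (hd x) hk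
      have h1 := (hSUP (s + 1) f hPA _ (C x) (bROB_mem (s + 1) (C x))).1
      have h2 := (hSUP (s + 1) f hPA _ (C' x) (bROB_mem (s + 1) (C' x))).1
      have key : ∀ y, y ∈ bROB_G (s + 1) (η / 2 ^ s) →
          f y ^ 2 ≤ 4 * 2 ^ (s + 1) * (∫ t in cell (s + 1) (bROB_k (s + 1) y), f t ^ 2) →
          2 * f y ^ 2 ≤ bROB_P (s + 1) (η / 2 ^ s) η f y := by
        intro y hy hfy
        have h0 : 0 ≤ ∫ t in cell (s + 1) (bROB_k (s + 1) y), f t ^ 2 :=
          integral_nonneg fun t => sq_nonneg _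
        unfold bROB_P
        rw [Set.indicator_of_mem hy]
        have h6 : 0 ≤ 2 ^ (s + 1) * (∫ t in cell (s + 1) (bROB_k (s + 1) y), f t ^ 2) *
            (48 * η ^ 2) := by positivity
        nlinarith
      have k1 := key _ g1 h1
      have k2 := key _ g2 h2
      nlinarith [sq_nonneg (f (C' x) + f (C x))]
  have hh : Nc (fun x => f (C' x) - f (C x)) :=
    (hNIC.1 _ _ (hNIC.2.2.2.2.2.2.2.2.2.1 C' (1 / 20) f (by norm_num) hC' hf).1
      (hNIC.2.2.2.2.2.2.2.2.2.1 C (1 / 20) f (by norm_num) hC hf).1).2.1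
  have hhI := (hNIC.2.2.2.2.1 _ hh).2.1
  have hnn : 0 ≤ ∫ t, f t ^ 2 := integral_nonneg fun t => sq_nonneg _
  unfold nsq
  calc ∫ x, (f (C' x) - f (C x)) ^ 2
      ≤ ∫ x, (bROB_P (s + 1) (η / 2 ^ s) η f (C x) + bROB_P (s + 1) (η / 2 ^ s) η f (C' x)) :=
        integral_mono hhI (i1.add i2) hpt
    _ = (∫ x, bROB_P (s + 1) (η / 2 ^ s) η f (C x)) +
        ∫ x, bROB_P (s + 1) (η / 2 ^ s) η f (C' x) := integral_add i1 i2
    _ ≤ 1 / (1 - 1 / 20) * (∫ y, bROB_P (s + 1) (η / 2 ^ s) η f y) +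
        1 / (1 - 1 / 20) * (∫ y, bROB_P (s + 1) (η / 2 ^ s) η f y) := add_le_add j1 j2
    _ ≤ 1 / (1 - 1 / 20) * ((48 * η ^ 2 + 16 * 2 ^ (s + 1) * (η / 2 ^ s)) * ∫ t, f t ^ 2) +
        1 / (1 - 1 / 20) * ((48 * η ^ 2 + 16 * 2 ^ (s + 1) * (η / 2 ^ s)) * ∫ t, f t ^ 2) := by
        gcongr <;> norm_num
    _ = 40 / 19 * ((48 * η ^ 2 + 32 * η) * ∫ t, f t ^ 2) := by
        have h2s : (2 : ℝ) ^ s ≠ 0 := by positivity
        rw [pow_succ]
        field_simp
        ring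
    _ ≤ 170 * η * ∫ t, f t ^ 2 := by
        have h1 : 40 / 19 * (48 * η ^ 2 + 32 * η) ≤ 170 * η := by nlinarith
        calc 40 / 19 * ((48 * η ^ 2 + 32 * η) * ∫ t, f t ^ 2)
            = (40 / 19 * (48 * η ^ 2 + 32 * η)) * ∫ t, f t ^ 2 := by ring
          _ ≤ _ := mul_le_mul_of_nonneg_right h1 hnn

end Pool.Agent.helper90.DH
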